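import Pool.Agent.TH192.MU.Rec3

set_option autoImplicit false
set_option linter.unusedSectionVars false
set_option linter.unusedVariables false

/-! # Products of families, in blocks -/

namespace Pool.Agent.R852.MX

open MvPolynomial Pool.Agent.W428.MOT Pool.Agent.TH192.DT Pool.Agent.TH192.MT Pool.Agent.TH192.MU

/-- leading coefficients of products -/
theorem lead_prodF {τ : Type} [Fintype τ] {F : Type} [Field F] (α : τ → ℕ) (H : τ → PowerSeries F)
    (h : ∀ t, Vn (α t) (H t)) : Vn (∑ t, α t) (∏ t, H t) ∧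
      PowerSeries.coeff (∑ t, α t) (∏ t, H t) = ∏ t, PowerSeries.coeff (α t) (H t) := by
  have h1 : ∀ t, ∃ U, H t = PowerSeries.X ^ α t * U := fun t => vn_iff.1 (h t)
  choose U hU using h1
  have h2 : ∏ t, H t = PowerSeries.X ^ (∑ t, α t) * ∏ t, U t := by
    rw [Finset.prod_congr rfl fun t _ => hU t, Finset.prod_mul_distrib,
      Finset.prod_pow_eq_pow_sum]
  have h3 : ∀ (n : ℕ) (V : PowerSeries F), PowerSeries.coeff n (PowerSeries.X ^ n * V) =
      PowerSeries.constantCoeff V := by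
    intro n V
    have := PowerSeries.coeff_X_pow_mul V n 0
    rw [zero_add] at this
    rw [this, PowerSeries.coeff_zero_eq_constantCoeff_apply]
  refine ⟨vn_iff.2 ⟨_, h2⟩, ?_⟩
  rw [h2, h3, map_prod]
  exact Finset.prod_congr rfl fun t _ => by rw [hU t, h3]

variable {K : Type} [Field K] {T B : ℕ} {π : Type}

/-- The products of one polynomial of each family of the block `b`, as the family `b`. -/
@[reducible] noncomputable def XM (X : Sys T) (β : Fin T → Fin B) : Sys B where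
  ι := X.ι
  fι := X.fι
  Λ := Σ b : Fin B, {c : {t // β t = b} → X.Λ // ∀ t, X.τ (c t) = t.1}
  fΛ := by classical exact inferInstance
  τ l := l.1
  G l := ∏ t, X.G (l.2.1 t)

variable (X : Sys T) (β : Fin T → Fin B)

/-- the data for the products -/
noncomputable def mM (v : Pt K (π ⊕ (X.ι ⊕ X.Λ))) : Pt K (π ⊕ ((XM X β).ι ⊕ (XM X β).Λ)) :=
  Sum.elim (fun p => v (Sum.inl p)) (Sum.elim (fun i => v (Sum.inr (Sum.inl i)))
    (fun l => ∏ t, v (Sum.inr (Sum.inr (l.2.1 t)))))

/-- the condition for the families -/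
def VM (V : Set (Pt K (π ⊕ ((XM X β).ι ⊕ (XM X β).Λ)))) :
    Set (Pt K (π ⊕ (X.ι ⊕ X.Λ))) :=
  {v | (∀ t, ∃ l, X.τ l = t ∧ v (Sum.inr (Sum.inr l)) ≠ 0) ∧ mM X β v ∈ V}

theorem pf_mM (i : π ⊕ ((XM X β).ι ⊕ (XM X β).Λ)) :
    IsPF (K := K) (fun v : Pt K (π ⊕ (X.ι ⊕ X.Λ)) => mM (K := K) X β v i) := by
  rcases i with p | i | c
  · exact IsPF.coord _
  · exact IsPF.coord _
  · change IsPF fun v : Pt K (π ⊕ (X.ι ⊕ X.Λ)) => ∏ t, v (Sum.inr (Sum.inr (c.2.1 t)))
    exact IsPF.prod _ (fun t (v : Pt K (π ⊕ (X.ι ⊕ X.Λ))) => v (Sum.inr (Sum.inr (c.2.1 t))))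
      fun t _ => IsPF.coord _

theorem constr_VM {V : Set (Pt K (π ⊕ ((XM X β).ι ⊕ (XM X β).Λ)))} (hV : Constr V) :
    Constr (VM X β V) := by
  refine Constr.and ?_ (hV.preimage (fun v : Pt K (π ⊕ (X.ι ⊕ X.Λ)) => mM X β v) (pf_mM X β))
  exact Constr.all fun t => Constr.ex fun l => Constr.and (Constr.const _)
    (Constr.not (Constr.eqz (IsPF.coord _)))

theorem gd_VM (V : Set (Pt K (π ⊕ ((XM X β).ι ⊕ (XM X β).Λ)))) : Gd X (VM X β V) :=
  fun _ hv => hv.1

theorem cone_VM {V : Set (Pt K (π ⊕ ((XM X β).ι ⊕ (XM X β).Λ)))} (hV : Cone (XM X β) V) :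
    Cone X (VM X β V) := by
  rintro v ⟨h1, h2⟩ μ hμ
  refine ⟨fun t => ?_, ?_⟩
  · obtain ⟨l, hl, hl'⟩ := h1 t
    exact ⟨l, hl, mul_ne_zero (hμ _) hl'⟩
  · have h3 := hV _ h2 (fun b => ∏ t : {t // β t = b}, μ t.1)
      fun b => Finset.prod_ne_zero_iff.2 fun t _ => hμ t.1
    have h4 : mM X β (scL X μ v) = scL (XM X β) (fun b => ∏ t : {t // β t = b}, μ t.1)
        (mM X β v) := by
      funext i
      rcases i with p | i | c
      · rfl
      · rfl
      · change ∏ t, (μ (X.τ (c.2.1 t)) * v (Sum.inr (Sum.inr (c.2.1 t)))) =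
          (∏ t : {t // β t = c.1}, μ t.1) * ∏ t, v (Sum.inr (Sum.inr (c.2.1 t)))
        rw [Finset.prod_mul_distrib]
        congr 1
        exact Finset.prod_congr rfl fun t _ => by rw [c.2.2 t]
    rw [h4]
    exact h3

/-- the `α` with the sums `A b` over the blocks -/
def fibF (β : Fin T → Fin B) (A : Fin B → ℕ) : Finset (Fin T → ℕ) :=
  (Fintype.piFinset fun t => Finset.range (A (β t) + 1)).filter
    fun α => ∀ b, ∑ t : {t // β t = b}, α t.1 = A b

theorem mem_fibF {A : Fin B → ℕ} {α : Fin T → ℕ} :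
    α ∈ fibF β A ↔ ∀ b, ∑ t : {t // β t = b}, α t.1 = A b := by
  unfold fibF
  rw [Finset.mem_filter, Fintype.mem_piFinset]
  refine ⟨fun h => h.2, fun h => ⟨fun t => ?_, h⟩⟩
  rw [Finset.mem_range]
  have h1 := h (β t)
  have h2 : α t ≤ ∑ s : {s // β s = β t}, α s.1 :=
    Finset.single_le_sum (f := fun s : {s // β s = β t} => α s.1)
      (fun _ _ => Nat.zero_le _) (Finset.mem_univ (⟨t, rfl⟩ : {s // β s = β t}))
  omega

theorem sum_blocks (w : Fin T → ℕ) : ∑ b, ∑ t : {t // β t = b}, w t.1 = ∑ t, w t :=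
  Fintype.sum_fiberwise β w

/-- the partition of the jets -/
theorem SSM_eq {V : Set (Pt K (π ⊕ ((XM X β).ι ⊕ (XM X β).Λ)))} (hG : Gd (XM X β) V)
    (A : Fin B → ℕ) (N : ℕ) : SS (XM X β) V A N = ⋃ α ∈ fibF β A, SS X (VM X β V) α N := by
  classical
  ext z
  simp only [Set.mem_iUnion, exists_prop, mem_fibF]
  set x : X.ι → PowerSeries (AlgebraicClosure K) := ar fun q => z (Sum.inr q) with hx
  have hevG : ∀ l : (XM X β).Λ, ev x ((XM X β).G l) = ∏ t, ev x (X.G (l.2.1 t)) := by
    intro l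
    exact map_prod (ev x) (fun t => X.G (l.2.1 t)) Finset.univ
  have hvn : ∀ α : Fin T → ℕ, Van X α x → ∀ (l : (XM X β).Λ) (t : {t // β t = l.1}),
      Vn (α t.1) (ev x (X.G (l.2.1 t))) := by
    intro α h l t
    have := h (l.2.1 t)
    rw [l.2.2 t] at this
    exact this
  have hdat : ∀ α : Fin T → ℕ, (∀ b, ∑ t : {t // β t = b}, α t.1 = A b) → Van X α x →
      mM X β (dat X α z) = dat (XM X β) A z := by
    intro α hα hvan
    funext i
    rcases i with p | i | c
    · rfl
    · rfl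
    · change ∏ t, lam X α x (c.2.1 t) = PowerSeries.coeff (A c.1) (ev x ((XM X β).G c))
      rw [hevG]
      obtain ⟨-, h2⟩ := lead_prodF (fun t : {t // β t = c.1} => α t.1)
        (fun t => ev x (X.G (c.2.1 t))) (hvn α hvan c)
      rw [hα] at h2
      rw [h2]
      refine Finset.prod_congr rfl fun t _ => ?_
      unfold lam
      rw [c.2.2 t]
  constructor
  · rintro ⟨h1, h2⟩
    have hG' := hG _ h2
    choose cb hcb hcb' using hG'
    -- choose a generator for each family
    have h7 : ∀ t, ∃ n, ∃ l, X.τ l = t ∧ PowerSeries.coeff n (ev x (X.G l)) ≠ 0 := by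
      intro t
      by_contra h
      push Not at h
      have hb := hcb' (β t)
      apply hb
      change PowerSeries.coeff (A (cb (β t)).1) (ev x ((XM X β).G (cb (β t)))) = 0
      rw [hevG]
      have hb1 : (cb (β t)).1 = β t := hcb (β t)
      have h4 : ev x (X.G ((cb (β t)).2.1 ⟨t, hb1.symm⟩)) = 0 :=
        PowerSeries.ext fun n => by rw [h n _ ((cb (β t)).2.2 ⟨t, hb1.symm⟩), map_zero]
      rw [Finset.prod_eq_zero (Finset.mem_univ (⟨t, hb1.symm⟩ : {s // β s = (cb (β t)).1})) h4,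
        map_zero]
    have hvan : Van X (fun t => Nat.find (h7 t)) x := by
      intro l j hj
      have := Nat.find_min (h7 (X.τ l)) hj
      push Not at this
      exact this l rfl
    choose l hl hl' using fun t => Nat.find_spec (h7 t)
    have hsum : ∀ b, ∑ t : {t // β t = b}, Nat.find (h7 t.1) = A b := by
      intro b
      -- the product of the best generators
      obtain ⟨h4, h5⟩ := lead_prodF (fun t : {t // β t = b} => Nat.find (h7 t.1))
        (fun t => ev x (X.G (l t.1)))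
        (fun t => by
          have := hvan (l t.1)
          rw [hl t.1] at this
          exact this)
      have h8 : PowerSeries.coeff (∑ t : {t // β t = b}, Nat.find (h7 t.1))
          (∏ t : {t // β t = b}, ev x (X.G (l t.1))) ≠ 0 := by
        rw [h5]
        exact Finset.prod_ne_zero_iff.2 fun t _ => hl' t.1
      have h1b := h1 (⟨b, ⟨fun t => l t.1, fun t => hl t.1⟩⟩ : (XM X β).Λ)
      rw [hevG] at h1b
      have hc := hcb' b
      have hbb : (cb b).1 = b := hcb b
      have hc1 : PowerSeries.coeff (A (cb b).1) (ev x ((XM X β).G (cb b))) ≠ 0 := hc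
      rw [hevG] at hc1
      rcases lt_trichotomy (∑ t : {t // β t = b}, Nat.find (h7 t.1)) (A b) with h | h | h
      · exact absurd (h1b _ h) h8
      · exact h
      · exfalso
        apply hc1
        have h9 : A (cb b).1 < ∑ t : {t // β t = (cb b).1}, Nat.find (h7 t.1) := by
          rw [hbb]
          exact h
        obtain ⟨h6', -⟩ := lead_prodF (fun t : {t // β t = (cb b).1} => Nat.find (h7 t.1))
          (fun t => ev x (X.G ((cb b).2.1 t))) (hvn _ hvan (cb b))
        exact h6' _ h9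
    refine ⟨fun t => Nat.find (h7 t), hsum, hvan, fun t => ⟨l t, hl t, ?_⟩, ?_⟩
    · change PowerSeries.coeff (Nat.find (h7 (X.τ (l t)))) (ev x (X.G (l t))) ≠ 0
      simp only [hl t]
      exact hl' t
    · rw [hdat _ hsum hvan]
      exact h2
  · rintro ⟨α, hα, h1, h2, h3⟩
    refine ⟨fun c => ?_, ?_⟩
    · change Vn (A c.1) (ev x ((XM X β).G c))
      rw [hevG]
      obtain ⟨h4, -⟩ := lead_prodF (fun t : {t // β t = c.1} => α t.1)
        (fun t => ev x (X.G (c.2.1 t))) (hvn α h1 c)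
      rw [hα] at h4
      exact h4
    · rw [← hdat α hα h1]
      exact h3

theorem SSM_disj (V : Set (Pt K (π ⊕ ((XM X β).ι ⊕ (XM X β).Λ)))) (N : ℕ)
    (q q' : Fin T → ℕ) (h : q ≠ q') : Disjoint (SS X (VM X β V) q N) (SS X (VM X β V) q' N) := by
  rw [Set.disjoint_left]
  rintro z ⟨h2, h3, _⟩ ⟨h2', h3', _⟩
  apply h
  funext t
  rcases lt_trichotomy (q t) (q' t) with h | h | h
  · exfalso
    obtain ⟨l, hl, hl'⟩ := h3 t
    exact hl' (h2' l _ (by rw [hl]; exact h))
  · exact h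
  · exfalso
    obtain ⟨l, hl, hl'⟩ := h3' t
    exact hl' (h2 l _ (by rw [hl]; exact h))

variable {R : Type} [CommRing R] (M : Meas K R) [Fintype π]

theorem gfM_eq (v : R) {V : Set (Pt K (π ⊕ ((XM X β).ι ⊕ (XM X β).Λ)))}
    (hV : Constr V) (hG : Gd (XM X β) V) (a : Fin B → ℕ) (ha : ∀ b, 0 < a b) :
    gf a (mm M v (XM X β) V) = gf (fun t => a (β t)) (mm M v X (VM X β V)) := by
  classical
  ext N
  unfold gf
  rw [PowerSeries.coeff_mk, PowerSeries.coeff_mk]
  have h1 : ∀ A : Fin B → ℕ, mm M v (XM X β) V A =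
      ∑ α ∈ fibF β A, mm M v X (VM X β V) α := by
    intro A
    unfold mm
    rw [SSM_eq X β hG, Pool.Agent.W375.MT.chi_biUnion M _ _
      (fun q _ => constr_SS X (constr_VM X β hV) q _) (fun q _ q' _ h => SSM_disj X β V _ q q' h),
      Finset.sum_mul]
    refine Finset.sum_congr rfl fun α hα => ?_
    rw [mem_fibF] at hα
    have h2 : ∑ b, A b = ∑ t, α t := by
      rw [← sum_blocks β α]
      exact Finset.sum_congr rfl fun b _ => (hα b).symm
    rw [h2]
  rw [Finset.sum_congr rfl fun A _ => h1 A, Finset.sum_sigma']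
  refine Finset.sum_bij' (fun q _ => q.2) (fun α _ => ⟨fun b => ∑ t : {t // β t = b}, α t.1, α⟩)
    ?_ ?_ ?_ ?_ ?_
  · rintro ⟨A, α⟩ h
    rw [Finset.mem_sigma, mem_box a ha, mem_fibF] at h
    rw [mem_box _ fun t => ha (β t)]
    rw [← h.1, ← sum_blocks β]
    refine Finset.sum_congr rfl fun b _ => ?_
    rw [← h.2 b, Finset.mul_sum]
    exact Finset.sum_congr rfl fun t _ => by rw [t.2]
  · intro α h
    rw [mem_box _ fun t => ha (β t)] at h
    rw [Finset.mem_sigma, mem_box a ha, mem_fibF]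
    refine ⟨?_, fun b => rfl⟩
    rw [← h, ← sum_blocks β]
    refine Finset.sum_congr rfl fun b _ => ?_
    rw [Finset.mul_sum]
    exact Finset.sum_congr rfl fun t _ => by rw [t.2]
  · rintro ⟨A, α⟩ h
    rw [Finset.mem_sigma, mem_fibF] at h
    refine Sigma.ext ?_ ?_
    · funext b
      exact h.2 b
    · rfl
  · intro α _
    rfl
  · intro q _
    rfl

/-- the exponents of the blocks -/
def pushD (β : Fin T → Fin B) (D : Set (ℕ × (Fin T → ℕ))) : Set (ℕ × (Fin B → ℕ)) :=
  {q | ∃ q' ∈ D, q = (q'.1, fun b => ∑ t : {t // β t = b}, q'.2 t.1)}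

theorem ratF_push (u : Rˣ) {D : Set (ℕ × (Fin T → ℕ))} {Z : PA T → PowerSeries R}
    (hZ : Z ∈ ratF u D) :
    (fun a : PA B => Z ⟨fun t => a.1 (β t), fun t => a.2 (β t)⟩) ∈ ratF u (pushD β D) := by
  have key : ∀ (a : PA B) (k : Fin T → ℕ),
      ∑ t, a.1 (β t) * k t = ∑ b, a.1 b * ∑ t : {t // β t = b}, k t.1 := by
    intro a k
    rw [← sum_blocks β]
    refine Finset.sum_congr rfl fun b _ => ?_
    rw [Finset.mul_sum]
    exact Finset.sum_congr rfl fun t _ => by rw [t.2]
  unfold ratF at hZ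
  induction hZ using Algebra.adjoin_induction with
  | mem x hx =>
    rcases hx with ⟨k, rfl⟩ | ⟨q, hq, rfl⟩
    · have h1 := ratF_X u (D := pushD β D) (fun b => ∑ t : {t // β t = b}, k t.1)
      have h2 : (fun a : PA B => (PowerSeries.X : PowerSeries R) ^ (∑ t, a.1 (β t) * k t)) =
          fun a : PA B => (PowerSeries.X : PowerSeries R) ^
            (∑ b, a.1 b * ∑ t : {t // β t = b}, k t.1) := by
        funext a
        rw [key]
      exact h2 ▸ h1
    · refine Algebra.subset_adjoin (Or.inr ⟨_, ⟨q, hq, rfl⟩, ?_⟩)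
      funext a
      change PowerSeries.C ((u : R) - 1) * geoU u (-(q.1 : ℤ))
        ((∑ t, a.1 (β t) * q.2 t : ℕ) : ℤ) = _
      rw [key]
  | algebraMap r => exact Subalgebra.algebraMap_mem _ r
  | add x y hx hy ihx ihy => exact Subalgebra.add_mem _ ihx ihy
  | mul x y hx hy ihx ihy => exact Subalgebra.mul_mem _ ihx ihy

/-- **The zeta functions of the product families.** -/
theorem rf_blk {M : Meas K R} {u : Rˣ} {D : Set (ℕ × (Fin T → ℕ))} (hX : RF u M D X) :
    RF u M (pushD β D) (XM X β) := by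
  intro π _ V hV hG hC
  have h1 := ratF_push β u (hX π _ (constr_VM X β hV) (gd_VM X β V) (cone_VM X β hC))
  have h2 : gF u M (XM X β) V = fun a : PA B =>
      gF u M X (VM X β V) ⟨fun t => a.1 (β t), fun t => a.2 (β t)⟩ := by
    funext a
    unfold gF
    exact gfM_eq X β M _ hV hG a.1 a.2
  rw [h2]
  exact h1

/-- the value at one tuple of exponents -/
theorem ratL_of_ratF (u : Rˣ) {D : Set (ℕ × (Fin T → ℕ))} {D' : Set (ℤ × ℤ)} (a : PA T)
    (hD : ∀ q ∈ D, (-(q.1 : ℤ), ((∑ t, a.1 t * q.2 t : ℕ) : ℤ)) ∈ D')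
    {Z : PA T → PowerSeries R} (hZ : Z ∈ ratF u D) : Z a ∈ ratL u D' := by
  unfold ratF at hZ
  induction hZ using Algebra.adjoin_induction with
  | mem x hx =>
    rcases hx with ⟨k, rfl⟩ | ⟨q, hq, rfl⟩
    · exact Subalgebra.pow_mem _ (ratL_X u) _
    · have h1 := ratL_geo u (hD q hq)
      simp only at h1 ⊢
      exact h1
  | algebraMap r => exact Subalgebra.algebraMap_mem _ r
  | add x y hx hy ihx ihy => exact Subalgebra.add_mem _ ihx ihy
  | mul x y hx hy ihx ihy => exact Subalgebra.mul_mem _ ihx ihy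

end Pool.Agent.R852.MX
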