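import Pool.Agent.TH192.MT.JDefs

set_option autoImplicit false

/-! # Products of powers of forms over products of determinantal ideals -/

namespace Pool.Agent.R852.MX

open MvPolynomial Pool.Agent.TH192.DT Pool.Agent.TH192.MT

/-- The polynomial `∏ b, (∑_J y_{b,J} ∏_{β t = b} M_{J t}(x)) ^ a b` in the variables `y_{b,J}` and `x`:
for `b < B`, `J` runs over the choices of one minor (Pfaffian) `M_{J t}` of size `p t` (`2 (p t)`) for
each `t < T` with `β t = b`. -/
noncomputable def mixForm (S : MSpace) {T B : ℕ} (p : Fin T → ℕ) (β : Fin T → Fin B)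
    (a : Fin B → ℕ) :
    MvPolynomial ((Σ b, ((t : {t // β t = b}) → S.Idx (p t.1))) ⊕ S.Var) ℤ :=
  ∏ b, (∑ J : (t : {t // β t = b}) → S.Idx (p t.1),
    X (Sum.inl ⟨b, J⟩) * rename Sum.inr (∏ t, minor S (p t.1) (J t))) ^ a b

/-- The pairs `(-ν_d, N_d)` with `N_d = ∑ t, a (β t) max (p t - d, 0) > 0`, for `d < rk`, where `ν_d` is
the codimension of the locus of the matrices of rank at most `d` (`2 d`), and the pairs
`(-1, a b)`. -/
noncomputable def mixPairs (S : MSpace) {T B : ℕ} (p : Fin T → ℕ) (β : Fin T → Fin B)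
    (a : Fin B → ℕ) : Finset (ℤ × ℤ) :=
  detPairs S p (fun t => a (β t)) ∪ Finset.univ.image fun b => (-1, (a b : ℤ))

end Pool.Agent.R852.MX
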