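import Pool.Agent.R852.MX.Defs
import Pool.Agent.TH192.DT.MotZ

set_option autoImplicit false

/-! # The multiplicities of the mixed determinantal products on the complete collineations -/

namespace Pool.Agent.R852.MX

open Pool.Agent.TH192.DT

/-- The multiplicities of `∏ b, F_b ^ a b`: `N_d = ∑ t, a (β t) max (p t - d, 0)` along `E_d`, and `a b`
along the strict transform of `F_b = 0`. -/
def mulM (S : MSpace) {T B : ℕ} (p : Fin T → ℕ) (β : Fin T → Fin B) (a : Fin B → ℕ) :
    Fin S.rk ⊕ Fin B → ℕ :=
  Sum.elim (fun d => ∑ t, a (β t) * (p t - (d : ℕ))) a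

end Pool.Agent.R852.MX
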