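import Pool.Agent.R852.MX.Defs
import Pool.Agent.TH192.MT.IdJet
import Pool.Agent.Y229.SP1

set_option autoImplicit false
set_option linter.unusedSectionVars false
set_option linter.unusedVariables false

/-! # The roots of the Bernstein-Sato polynomials of the mixed determinantal products -/

namespace Pool.Agent.R852.MX

open MvPolynomial Pool.Agent.W574.SM Pool.Agent.W574.LM Pool.Agent.H628R4.TP
  Pool.Agent.W574.HS Pool.Agent.W574.RO Pool.Agent.Y229 Pool.Agent.TH192.DT Pool.Agent.TH192.MT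

/-- renaming the generators -/
theorem locEq_reindex {σ ι ι' : Type} [Fintype ι] [Fintype ι'] (k : ι ≃ ι')
    (H : MvPolynomial σ ℂ) (f : ι → MvPolynomial σ ℂ)
    (f' : ι' → MvPolynomial σ ℂ) (h : ∀ j, f' (k j) = f j) (b : Polynomial ℂ)
    (hb : IsLocEq H f' b) : IsLocEq H f b := by
  classical
  rw [isLocEq_iff] at hb ⊢
  have h1 := TR_V (Equiv.refl σ) k f f' (fun j => by rw [h]; simp) 1 _ hb
  have h2 : TR (Equiv.refl σ) k (mulB (Polynomial.C H * b.map C) (G0 f')) =
      mulB (Polynomial.C H * b.map C) (G0 f) := by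
    funext s
    have hs : ∑ j, s (k.symm j) = ∑ j, s j := k.symm.sum_comp s
    have hp : ∏ j, f' j ^ s (k.symm j) = ∏ j, f j ^ s j := by
      rw [← k.prod_comp]
      refine Finset.prod_congr rfl fun j _ => ?_
      rw [Equiv.symm_apply_apply, h]
    have hr : ∀ P : MvPolynomial σ ℂ, rename (Equiv.refl σ).symm P = P := by
      intro P
      have : ((Equiv.refl σ).symm : σ → σ) = id := rfl
      rw [this, rename_id_apply]
    change rename (Equiv.refl σ).symm
      ((Polynomial.C H * b.map C).eval (C ((∑ j, s (k.symm j) : ℕ) : ℂ)) *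
        ∏ j, f' j ^ s (k.symm j)) = (Polynomial.C H * b.map C).eval (C ((∑ j, s j : ℕ) : ℂ)) *
        ∏ j, f j ^ s j
    rw [hr, hs, hp]
  rw [h2] at h1
  exact h1

/-- the roots of products of determinantal ideals, with any index set -/
theorem ideal_rootsF (S : MSpace) {τ : Type} [Fintype τ] [DecidableEq τ] (p : τ → ℕ)
    (hp : ∀ t, S.Small (p t))
    (b : Polynomial ℂ) (H : MvPolynomial S.Var ℂ) (hH : MvPolynomial.constantCoeff H ≠ 0)
    (hb : IsLocEq H (prodFam fun t => S.minors (p t)) b) (d : Fin S.rk) (l : ℕ)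
    (hl : l < ∑ t, (p t - (d : ℕ))) :
    b.eval (-((S.codim d : ℂ) + l) / (∑ t, (p t - (d : ℕ)) : ℕ)) = 0 := by
  obtain ⟨t0, _, ht0⟩ := Finset.exists_ne_zero_of_sum_ne_zero
    (by omega : ∑ t, (p t - (d : ℕ)) ≠ 0)
  cases S with
  | gen m n =>
    have h3 := generic_roots m n d l p (fun t => (hp t).1.le) (fun t => (hp t).2.le) t0 (by omega)
      (hp t0).1 (hp t0).2 b H hb hH hl
    have h4 : (((MSpace.gen m n).codim d : ℕ) : ℂ) = ((m : ℂ) - (d : ℕ)) * (n - (d : ℕ)) := by
      change (((m - d) * (n - d) : ℕ) : ℂ) = _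
      have h5 : (d : ℕ) < min m n := d.2
      rw [Nat.cast_mul, Nat.cast_sub (by omega), Nat.cast_sub (by omega)]
    rw [h4]
    exact h3
  | sym n =>
    have h3 := symm_roots n d l p (fun t => Nat.le_of_lt (hp t)) t0 (by omega) (hp t0) b H hb hH hl
    have h4 : (((MSpace.sym n).codim d : ℕ) : ℂ) = ((n : ℂ) - (d : ℕ)) * (n - (d : ℕ) + 1) / 2 := by
      change (((n - d) * (n - d + 1) / 2 : ℕ) : ℂ) = _
      have h6 : (d : ℕ) < n := d.2
      have h5 : (n - d) * (n - d + 1) / 2 = (n - d + 1).choose 2 := by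
        rw [Nat.choose_two_right, Nat.add_sub_cancel, mul_comm]
      rw [h5, Nat.cast_choose_two, Nat.cast_add, Nat.cast_sub (by omega), Nat.cast_one]
      ring
    rw [h4]
    exact h3
  | skew n =>
    have h3 := pf_roots n d l p (fun t => by have : 2 * p t + 1 < n := hp t; omega) t0 (by omega)
      (hp t0) b H hb hH hl
    have h4 : (((MSpace.skew n).codim d : ℕ) : ℂ)
        = ((n : ℂ) - 2 * (d : ℕ)) * (n - 2 * (d : ℕ) - 1) / 2 := by
      change (((n - 2 * d) * (n - 2 * d - 1) / 2 : ℕ) : ℂ) = _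
      have h6 : (d : ℕ) < n / 2 := d.2
      have h5 : (n - 2 * d) * (n - 2 * d - 1) / 2 = (n - 2 * d).choose 2 := by
        rw [Nat.choose_two_right]
      rw [h5, Nat.cast_choose_two, Nat.cast_sub (by omega)]
      push_cast
      ring
    rw [h4]
    exact h3

variable {T B : ℕ}

/-- the families of the blocks -/
noncomputable def blkFam (S : MSpace) (p : Fin T → ℕ) (β : Fin T → Fin B) (b : Fin B) :
    ((t : {t // β t = b}) → S.Idx (p t.1)) → MvPolynomial S.Var ℂ :=
  prodFam fun t : {t // β t = b} => S.minors (p t.1)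

theorem map_mixForm (S : MSpace) (p : Fin T → ℕ) (β : Fin T → Fin B) (a : Fin B → ℕ) :
    map (Int.castRingHom ℂ) (mixForm S p β a) = powProd a (blkFam S p β) := by
  unfold mixForm powProd blockForm
  rw [map_prod]
  refine Finset.prod_congr rfl fun b _ => ?_
  rw [map_pow, map_sum]
  congr 1
  refine Finset.sum_congr rfl fun J _ => ?_
  rw [map_mul, map_X, map_rename, map_prod]
  congr 2
  exact Finset.prod_congr rfl fun t _ => by rw [minor_eq, S.map_minorsZ]

theorem blkFam_ne (S : MSpace) (p : Fin T → ℕ) (β : Fin T → Fin B) (hp : ∀ t, S.Small (p t))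
    (b : Fin B) : ∃ j, blkFam S p β b j ≠ 0 := by
  choose j hj using fun t : {t // β t = b} => S.minors_ne (p t.1) (hp t.1)
  refine ⟨j, ?_⟩
  change ∏ t : {t // β t = b}, S.minors (p t.1) (j t) ≠ 0
  exact Finset.prod_ne_zero_iff.2 fun t _ => hj t

theorem sum_mix (p : Fin T → ℕ) (β : Fin T → Fin B) (a : Fin B → ℕ) (d : ℕ) :
    ∑ x : (Σ q : (Σ b, Fin (a b)), {t // β t = q.1}), (p x.2.1 - d) =
      ∑ t, a (β t) * (p t - d) := by
  rw [Fintype.sum_sigma, Fintype.sum_sigma, ← Fintype.sum_fiberwise β]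
  refine Finset.sum_congr rfl fun b _ => ?_
  have h1 : ∀ i : Fin (a b), ∑ t : {t // β t = b}, (p t.1 - d) =
      ∑ t : {t // β t = b}, (p t.1 - d) := fun _ => rfl
  trans ∑ _i : Fin (a b), ∑ t : {t // β t = b}, (p t.1 - d)
  · rfl
  · rw [Finset.sum_const, Finset.card_univ, Fintype.card_fin, smul_eq_mul, Finset.mul_sum]
    exact Finset.sum_congr rfl fun t _ => by rw [t.2]

theorem mix_data (S : MSpace) (p : Fin T → ℕ) (β : Fin T → Fin B) (a : Fin B → ℕ)
    (hp : ∀ t, S.Small (p t)) (b : Polynomial ℂ) (hb : PowData a (blkFam S p β) b)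
    (d : Fin S.rk) (l : ℕ) (hl : l < ∑ t, a (β t) * (p t - (d : ℕ))) :
    b.eval (-((S.codim d : ℂ) + l) / (∑ t, a (β t) * (p t - (d : ℕ)) : ℕ)) = 0 := by
  classical
  obtain ⟨t0, _, ht0⟩ := Finset.exists_ne_zero_of_sum_ne_zero
    (by omega : ∑ t, a (β t) * (p t - (d : ℕ)) ≠ 0)
  obtain ⟨H, hH, hHb⟩ := hb.ideal ⟨β t0, left_ne_zero_of_mul ht0⟩
  have h1 : IsLocEq H (prodFam fun x : (Σ q : (Σ b, Fin (a b)), {t // β t = q.1}) =>
      S.minors (p x.2.1)) b := by
    refine locEq_reindex (Equiv.piCurry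
      (fun (q : Σ b, Fin (a b)) (t : {t // β t = q.1}) => S.Idx (p t.1))) H _ _ ?_ b hHb
    intro J
    exact (Fintype.prod_sigma (fun x : (Σ q : (Σ b, Fin (a b)), {t // β t = q.1}) =>
      S.minors (p x.2.1) (J x))).symm
  have h2 := ideal_rootsF S (fun x : (Σ q : (Σ b, Fin (a b)), {t // β t = q.1}) => p x.2.1)
    (fun x => hp _) b H hH h1 d l (by rw [sum_mix p β a d]; exact hl)
  rw [sum_mix p β a d] at h2
  exact h2

/-- **The roots.** -/
theorem mix_roots (S : MSpace) (p : Fin T → ℕ) (β : Fin T → Fin B) (a : Fin B → ℕ)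
    (hp : ∀ t, S.Small (p t)) (ha : ∀ b, 0 < a b) (q : ℤ × ℤ) (hq : q ∈ mixPairs S p β a) :
    q.1 < 0 ∧ 0 < q.2 ∧
      (∀ b : Polynomial ℂ, IsBFunction (map (Int.castRingHom ℂ) (mixForm S p β a)) b →
        b.eval ((q.1 : ℂ) / q.2) = 0) ∧
      ∀ b : Polynomial ℂ, IsLocalBFunction (map (Int.castRingHom ℂ) (mixForm S p β a)) b →
        b.eval ((q.1 : ℂ) / q.2) = 0 := by
  classical
  rw [map_mixForm]
  have key : q.1 < 0 ∧ 0 < q.2 ∧ ∀ b : Polynomial ℂ, PowData a (blkFam S p β) b →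
      b.eval ((q.1 : ℂ) / q.2) = 0 := by
    rw [mixPairs, Finset.mem_union] at hq
    rcases hq with hq | hq
    · unfold detPairs at hq
      obtain ⟨d, hd, rfl⟩ := Finset.mem_image.1 hq
      rw [Finset.mem_filter, Finset.mem_range] at hd
      have hpos : 0 < S.codim d := S.codim_pos ⟨d, hd.1⟩
      refine ⟨by simp only; omega, by simp only; exact_mod_cast hd.2, fun b hb => ?_⟩
      have h1 := mix_data S p β a hp b hb ⟨d, hd.1⟩ 0 hd.2
      simp only [Nat.cast_zero, add_zero] at h1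
      push_cast at h1 ⊢
      exact h1
    · obtain ⟨c, _, rfl⟩ := Finset.mem_image.1 hq
      refine ⟨by norm_num, by simp only; exact_mod_cast ha c, fun b hb => ?_⟩
      have h1 := hb.strict c 0 (ha c)
      simp only [Nat.cast_zero, add_zero] at h1
      push_cast
      exact h1
  refine ⟨key.1, key.2.1, fun b hb => key.2.2 b
    (powData_global a _ (blkFam_ne S p β hp) b hb), fun b hb => key.2.2 b
    (powData_local a _ (blkFam_ne S p β hp) b hb)⟩

end Pool.Agent.R852.MX
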