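import Pool.Agent.R852.MX.EDefs
import Pool.Agent.R852.MX.Roots

set_option autoImplicit false

/-! # The equivariant zeta functions of the mixed determinantal products -/

namespace Pool.Agent.R852.MX

open MvPolynomial Pool.Agent.H628R4.TP Pool.Agent.TH192.DT Pool.Agent.TH192.MT

theorem mix_rootsE (S : MSpace) {T B : ℕ} (p : Fin T → ℕ) (β : Fin T → Fin B) (a : Fin B → ℕ)
    (hp : ∀ t, S.Small (p t)) (b : Polynomial ℂ)
    (hb : IsBFunction (map (Int.castRingHom ℂ) (mixForm S p β a)) b) (i : Fin S.rk ⊕ Fin B) (l : ℕ)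
    (hl : l < mulM S p β a i) :
    b.eval (-((S.nu B i : ℂ) + l) / mulM S p β a i) = 0 := by
  rw [map_mixForm] at hb
  have hb' := powData_global a _ (blkFam_ne S p β hp) b hb
  rcases i with d | c
  · exact mix_data S p β a hp b hb' d l hl
  · have h3 := hb'.strict c l hl
    change b.eval (-(((1 : ℕ) : ℂ) + l) / a c) = 0
    rw [Nat.cast_one]
    exact h3

end Pool.Agent.R852.MX
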