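import Pool.Agent.R852.MX.Defs

set_option autoImplicit false

/-! # The candidate hyperplanes of the tuples of forms over products of determinantal ideals -/

namespace Pool.Agent.R852.MX

open Pool.Agent.TH192.DT

/-- The pairs `(ν_d, (∑_{β t = b} max (p t - d, 0))_b)`, for `d < rk`, where some `p t > d`, and the
pairs `(1, e_b)`, `e_b` the unit vectors. -/
noncomputable def mixTuplePairs (S : MSpace) {T B : ℕ} (p : Fin T → ℕ) (β : Fin T → Fin B) :
    Finset (ℕ × (Fin B → ℕ)) :=
  ((Finset.range S.rk).filter fun d => ∃ t, 0 < p t - d).image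
    (fun d => (S.codim d, fun b => ∑ t : {t // β t = b}, (p t.1 - d))) ∪
      Finset.univ.image fun b => (1, Pi.single b 1)

end Pool.Agent.R852.MX
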