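import Pool.Agent.R852.MX.Blk
import Pool.Agent.R852.MX.Roots
import Pool.Agent.R852.MX.TDefs
import Pool.Agent.TH192.MU.TopF

set_option autoImplicit false
set_option linter.unusedSectionVars false
set_option linter.unusedVariables false

/-! # The zeta functions of the mixed determinantal products -/

namespace Pool.Agent.R852.MX

open MvPolynomial Pool.Agent.W428.MOT Pool.Agent.TH192.DT Pool.Agent.TH192.MT
  Pool.Agent.TH192.MU Pool.Agent.TH192.PA Pool.Agent.W574.SM Pool.Agent.H628R4.TP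

variable {T B : ℕ}

/-- The products of minors of the blocks. -/
@[reducible] noncomputable def mixSys (S : MSpace) (p : Fin T → ℕ) (β : Fin T → Fin B) : Sys B where
  ι := S.Var
  fι := inferInstance
  Λ := Σ b, ((t : {t // β t = b}) → S.Idx (p t.1))
  fΛ := inferInstance
  τ l := l.1
  G l := ∏ t, minor S (p t.1) (l.2 t)

theorem mix_rf {K : Type} [Field K] (S : MSpace) {R : Type} [CommRing R] {u : Rˣ}
    {M : Meas K R} (hu : M.L = (u : R)) (p : Fin T → ℕ) (β : Fin T → Fin B) :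
    RF u M (pushD β (DsetF S.codim p 0)) (mixSys S p β) := by
  have h1 := rf_blk (topSys S p) β (top_rf S hu p)
  refine rf_change (Xs := mixSys S p β) (Ys := XM (topSys S p) β) hu (Equiv.refl _) ?_ h1
  intro A _ x b
  unfold fI
  congr 1
  ext y
  constructor
  · rintro ⟨⟨b', J⟩, hb, rfl⟩
    have hb' : b' = b := hb
    subst hb'
    refine ⟨⟨b', ⟨fun t => ⟨t.1, J t⟩, fun t => rfl⟩⟩, rfl, ?_⟩
    change ev x (∏ t, minor S (p t.1) (J t)) = ev x (∏ t, S.minorsZ (p t.1) (J t))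
    congr 1
    exact Finset.prod_congr rfl fun t _ => minor_eq S (p t.1) (J t)
  · rintro ⟨⟨b', c⟩, hb, rfl⟩
    have hb' : b' = b := hb
    subst hb'
    have h2 : ∀ t : {t // β t = b'}, ∃ j : S.Idx (p t.1),
        (topSys S p).G (c.1 t) = minor S (p t.1) j := by
      intro t
      have h3 : ∀ (l : Σ t, S.Idx (p t)) (t : Fin T), l.1 = t →
          ∃ j : S.Idx (p t), S.minorsZ (p l.1) l.2 = minor S (p t) j := by
        rintro ⟨t', j⟩ t rfl
        exact ⟨j, (minor_eq S _ _).symm⟩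
      exact h3 (c.1 t) t.1 (c.2 t)
    choose j hj using h2
    refine ⟨⟨b', j⟩, rfl, ?_⟩
    change ev x (∏ t, (topSys S p).G (c.1 t)) = ev x (∏ t, minor S (p t.1) (j t))
    congr 1
    exact Finset.prod_congr rfl fun t _ => hj t

theorem fX_mix (S : MSpace) (p : Fin T → ℕ) (β : Fin T → Fin B) (a : Fin B → ℕ) :
    fX (mixSys S p β) a = mixForm S p β a := by
  classical
  unfold fX mixForm
  refine Finset.prod_congr rfl fun b _ => ?_
  congr 1
  rw [Fintype.sum_sigma, Finset.sum_eq_single b]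
  · refine Finset.sum_congr rfl fun j _ => ?_
    rw [if_pos rfl]
  · intro b' _ hb'
    refine Finset.sum_eq_zero fun j _ => ?_
    rw [if_neg hb']
  · intro h
    exact absurd (Finset.mem_univ _) h

theorem push_sub (S : MSpace) (p : Fin T → ℕ) (β : Fin T → Fin B) (hp : ∀ t, S.Small (p t)) :
    pushD β (DsetF S.codim p 0) ⊆ (mixTuplePairs S p β : Set (ℕ × (Fin B → ℕ))) := by
  classical
  rintro q ⟨q', ⟨d, _, hd, rfl⟩, rfl⟩
  rw [Finset.mem_coe, mixTuplePairs, Finset.mem_union]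
  exact Or.inl (Finset.mem_image.2 ⟨d, Finset.mem_filter.2
    ⟨Finset.mem_range.2 (lt_rk' S p hp hd), hd⟩, rfl⟩)

theorem mixTuplePairs_pos (S : MSpace) (p : Fin T → ℕ) (β : Fin T → Fin B)
    (q : ℕ × (Fin B → ℕ)) (hq : q ∈ mixTuplePairs S p β) : 0 < q.1 ∧ ∃ b, 0 < q.2 b := by
  classical
  rw [mixTuplePairs, Finset.mem_union] at hq
  rcases hq with hq | hq
  · obtain ⟨d, hd, rfl⟩ := Finset.mem_image.1 hq
    rw [Finset.mem_filter, Finset.mem_range] at hd
    obtain ⟨t, ht⟩ := hd.2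
    refine ⟨S.codim_pos ⟨d, hd.1⟩, β t, ?_⟩
    exact Finset.sum_pos' (fun _ _ => Nat.zero_le _)
      ⟨(⟨t, rfl⟩ : {s // β s = β t}), Finset.mem_univ _, ht⟩
  · obtain ⟨b, _, rfl⟩ := Finset.mem_image.1 hq
    exact ⟨Nat.one_pos, b, by simp⟩

/-- the pairs of the powers -/
theorem mixTuple_form (S : MSpace) (p : Fin T → ℕ) (β : Fin T → Fin B) (n : Fin B → ℕ)
    (hn : ∀ b, 0 < n b) (q : ℕ × (Fin B → ℕ)) (hq : q ∈ mixTuplePairs S p β) :
    (-(q.1 : ℤ), ((∑ b, n b * q.2 b : ℕ) : ℤ)) ∈ mixPairs S p β n := by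
  classical
  rw [mixTuplePairs, Finset.mem_union] at hq
  rw [mixPairs, Finset.mem_union]
  rcases hq with hq | hq
  · left
    obtain ⟨d, hd, rfl⟩ := Finset.mem_image.1 hq
    rw [Finset.mem_filter, Finset.mem_range] at hd
    obtain ⟨t, ht⟩ := hd.2
    have h1 : ∑ b, n b * ∑ t : {t // β t = b}, (p t.1 - d) = ∑ t, n (β t) * (p t - d) := by
      rw [← sum_blocks β]
      refine Finset.sum_congr rfl fun b _ => ?_
      rw [Finset.mul_sum]
      exact Finset.sum_congr rfl fun t _ => by rw [t.2]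
    rw [detPairs, Finset.mem_image]
    refine ⟨d, Finset.mem_filter.2 ⟨Finset.mem_range.2 hd.1, ?_⟩, ?_⟩
    · exact Finset.sum_pos' (fun _ _ => Nat.zero_le _)
        ⟨t, Finset.mem_univ t, Nat.mul_pos (hn _) ht⟩
    · simp only
      rw [h1]
  · right
    obtain ⟨b, _, rfl⟩ := Finset.mem_image.1 hq
    refine Finset.mem_image.2 ⟨b, Finset.mem_univ b, ?_⟩
    have h2 : ∑ b', n b' * (Pi.single b 1 : Fin B → ℕ) b' = n b := by
      simp [Pi.single_apply]
    rw [h2]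
    rfl

theorem mix_mem (S : MSpace) (p : Fin T → ℕ) (β : Fin T → Fin B) (hp : ∀ t, S.Small (p t))
    {W : Set (Pt ℂ ((Σ b, ((t : {t // β t = b}) → S.Idx (p t.1))) ⊕ S.Var))} (hW : Constr W) :
    (fun a : PA B => zetaM (map (Int.castRingHom ℂ) (mixForm S p β a.1)) W {c | c ≠ 0}) ∈
      ratF (Lu ℂ) (mixTuplePairs S p β : Set (ℕ × (Fin B → ℕ))) := by
  classical
  obtain ⟨M, hL, hM⟩ := exists_meas ℂ
  have h1 := zetaS_memF (X := mixSys S p β) hL
    (D := (mixTuplePairs S p β : Set (ℕ × (Fin B → ℕ))))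
    (fun π _ V hV hG hC => ratF_mono (Lu ℂ) (push_sub S p β hp)
      (mix_rf S hL p β π V hV hG hC))
    (fun t => by
      rw [Finset.mem_coe, mixTuplePairs, Finset.mem_union]
      exact Or.inr (Finset.mem_image.2 ⟨t, Finset.mem_univ t, rfl⟩)) (W := W) hW
  have h2 : (fun a : PA B => zetaM (map (Int.castRingHom ℂ) (mixForm S p β a.1)) W
      {c | c ≠ 0}) =
      fun a : PA B => zetaS M (((Lu ℂ)⁻¹ : (MK ℂ)ˣ) : MK ℂ)
        (map (Int.castRingHom ℂ) (fX (mixSys S p β) a.1)) W {c | c ≠ 0} := by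
    funext a
    rw [fX_mix]
    unfold zetaM zetaS
    congr 1
    funext d
    rw [hM, inv_pow_eq, Nat.mul_comm]
  rw [h2]
  exact h1

theorem mix_zeta (S : MSpace) (p : Fin T → ℕ) (β : Fin T → Fin B) (a : Fin B → ℕ)
    (hp : ∀ t, S.Small (p t)) (ha : ∀ b, 0 < a b)
    {W : Set (Pt ℂ ((Σ b, ((t : {t // β t = b}) → S.Idx (p t.1))) ⊕ S.Var))} (hW : Constr W) :
    zetaM (map (Int.castRingHom ℂ) (mixForm S p β a)) W {c | c ≠ 0} ∈
      ratL (Lu ℂ) (mixPairs S p β a : Set (ℤ × ℤ)) :=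
  ratL_of_ratF (Lu ℂ) (⟨a, ha⟩ : PA B) (fun q hq => mixTuple_form S p β a ha q hq)
    (mix_mem S p β hp hW)

/-- **The topological zeta functions of the mixed determinantal products.** -/
theorem mix_top (S : MSpace) (p : Fin T → ℕ) (β : Fin T → Fin B) (a : Fin B → ℕ)
    (hp : ∀ t, S.Small (p t)) (ha : ∀ b, 0 < a b)
    {W : Set (Pt ℂ ((Σ b, ((t : {t // β t = b}) → S.Idx (p t.1))) ⊕ S.Var))} (hW : Constr W)
    {R : Type} [CommRing R] [IsDomain R] (E : MK ℂ →+* R) (ε : R →+* ℂ)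
    (h1 : ε (E ((Lu ℂ : (MK ℂ)ˣ) : MK ℂ)) = 1) (hu : E ((Lu ℂ : (MK ℂ)ˣ) : MK ℂ) ≠ 1) :
    ∃ Z : RatFunc ℂ,
      IsTopZeta E ε (zetaM (map (Int.castRingHom ℂ) (mixForm S p β a)) W {c | c ≠ 0}) Z ∧
      (∀ Z', IsTopZeta E ε (zetaM (map (Int.castRingHom ℂ) (mixForm S p β a)) W {c | c ≠ 0})
        Z' → Z' = Z) ∧
      ∀ s₀ : ℂ, Z.denom.eval s₀ = 0 → ∃ q ∈ mixPairs S p β a, s₀ = (q.1 : ℂ) / q.2 :=
  topZeta_main E ε h1 hu (fun q hq => ⟨(mix_roots S p β a hp ha q hq).1,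
    (mix_roots S p β a hp ha q hq).2.1⟩) (mix_zeta S p β a hp ha hW)

end Pool.Agent.R852.MX
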